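import Pool.Agent.TH837.KC.Up

/-!
The exact exponents.
-/

set_option autoImplicit false

namespace Pool.Agent.TH837.KC

open Finset
open Pool.Agent.TH837.MX (Prog Computes)

theorem choose_two_pos {k : ℕ} (hk : 2 ≤ k) : (0 : ℝ) < k.choose 2 := by
  exact_mod_cast Nat.choose_pos hk

theorem upper (k : ℕ) (hk : 2 ≤ k) (u : ℕ) (huk : u ≤ k) (n : ℕ) (hn : 1 ≤ n) :
    ∃ f : (Ed k n → ℝ) → ℝ, Computes f (4 * k ^ 3 * 2 ^ k * n ^ (u + 1)) ∧
      ∀ w : Ed k n → ℝ, (∀ e, 0 ≤ w e) → (∃ z : Fin k → Fin n, f w ≤ ∑ e ∈ clq z, w e) ∧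
        ∀ z : Fin k → Fin n,
          (1 - ((k - u).choose 2 : ℝ) / k.choose 2) * ∑ e ∈ clq z, w e ≤ f w := by
  have d : Fin n := ⟨0, hn⟩
  refine ⟨prog u d, prog_computes hk u d, fun w hw => ⟨prog_sound u d w hw, fun z => ?_⟩⟩
  have h0 := choose_two_pos hk
  have h1 := prog_good huk d w z
  have h2 : (tre u k : ℝ) + (k - u).choose 2 = k.choose 2 := by exact_mod_cast tre_eq huk
  have h3 : 1 - ((k - u).choose 2 : ℝ) / k.choose 2 = tre u k / k.choose 2 := by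
    rw [eq_div_iff h0.ne', sub_mul, div_mul_cancel₀ _ h0.ne']
    linarith
  rw [h3, div_mul_eq_mul_div, div_le_iff₀ h0]
  linarith

theorem lower' (k : ℕ) (hk : 2 ≤ k) (u : ℕ) (hu : 1 ≤ u) (huk : u ≤ k) (α q : ℝ)
    (hα : 1 - ((k - u + 1).choose 2 : ℝ) / k.choose 2 < α) (n : ℕ) (R : Type) [Fintype R]
    [Nonempty R] (f : R → (Ed k n → ℝ) → ℝ) (hf : Approx α q f) (s : ℕ)
    (hs : ∀ r, Computes (f r) s) : q * n ^ (u + 1) ≤ 4 ^ k * s := by
  obtain ⟨v, rfl⟩ : ∃ v, u = v + 1 := ⟨u - 1, by omega⟩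
  have h0 := choose_two_pos hk
  have h2 : (tre v k : ℝ) + (k - v).choose 2 = k.choose 2 := by
    exact_mod_cast tre_eq (by omega : v ≤ k)
  have h3 : k - (v + 1) + 1 = k - v := by omega
  rw [h3] at hα
  refine lower (v := v) ?_ hf hs
  have h4 : (1 - ((k - v).choose 2 : ℝ) / k.choose 2) * k.choose 2 < α * k.choose 2 :=
    mul_lt_mul_of_pos_right hα h0
  rw [sub_mul, div_mul_cancel₀ _ h0.ne'] at h4
  linarith

theorem lowerRoot (k : ℕ) (hk : 2 ≤ k) (α q : ℝ) (hα : 0 < α) (hα1 : α ≤ 1) (hq : 0 ≤ q) (n : ℕ)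
    (hn : 1 ≤ n) (R : Type) [Fintype R] [Nonempty R] (f : R → (Ed k n → ℝ) → ℝ)
    (hf : Approx α q f) (s : ℕ) (hs : ∀ r, Computes (f r) s) :
    q * (n : ℝ) ^ ((1 - Real.sqrt (1 - α)) * k) ≤ 4 ^ k * s := by
  classical
  have h0 := choose_two_pos hk
  have hex : ∃ u : ℕ, ((k - u).choose 2 : ℝ) ≤ (1 - α) * k.choose 2 := by
    refine ⟨k, ?_⟩
    rw [Nat.sub_self]
    have : (Nat.choose 0 2 : ℝ) = 0 := by simp
    rw [this]
    exact mul_nonneg (by linarith) h0.le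
  obtain ⟨u, hu⟩ : ∃ u, u = Nat.find hex := ⟨_, rfl⟩
  have hu1 : ((k - u).choose 2 : ℝ) ≤ (1 - α) * k.choose 2 := by rw [hu]; exact Nat.find_spec hex
  have hmin : ∀ v < u, (1 - α) * (k.choose 2 : ℝ) < (k - v).choose 2 := by
    intro v hv
    rw [hu] at hv
    exact not_le.1 (Nat.find_min hex hv)
  have hupos : 1 ≤ u := by
    by_contra hcon
    have h1 : u = 0 := by omega
    rw [h1, Nat.sub_zero] at hu1
    nlinarith
  have huk : u + 1 ≤ k := by
    by_contra hcon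
    have h1 := hmin (k - 1) (by omega)
    have h2 : k - (k - 1) = 1 := by omega
    rw [h2] at h1
    have h3 : (Nat.choose 1 2 : ℝ) = 0 := by simp
    rw [h3] at h1
    have := mul_nonneg (show (0 : ℝ) ≤ 1 - α by linarith) h0.le
    linarith
  have h1 := lower' k hk u hupos (by omega) α q (by
    have h2 := hmin (u - 1) (by omega)
    have h3 : k - (u - 1) = k - u + 1 := by omega
    rw [h3] at h2
    have h4 : 1 - α < ((k - u + 1).choose 2 : ℝ) / k.choose 2 := by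
      rw [lt_div_iff₀ h0]; exact h2
    linarith) n R f hf s hs
  refine le_trans ?_ h1
  have hnR : (1 : ℝ) ≤ n := by exact_mod_cast hn
  rw [← Real.rpow_natCast (n : ℝ) (u + 1)]
  refine mul_le_mul_of_nonneg_left (Real.rpow_le_rpow_of_exponent_le hnR ?_) hq
  -- `k - u - 1 ≤ √(1 - α) k`
  obtain ⟨m, hm⟩ : ∃ m, k = u + 1 + m := ⟨k - u - 1, by omega⟩
  have hm1 : k - u = m + 1 := by omega
  rw [hm1, Nat.choose_two_right, Nat.choose_two_right] at hu1
  have h5 : (((m + 1) * (m + 1 - 1) / 2 : ℕ) : ℝ) = (m + 1) * m / 2 := by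
    rw [Nat.cast_div (by
      rw [Nat.add_sub_cancel, mul_comm]
      exact (Nat.even_mul_succ_self m).two_dvd) (by norm_num)]
    rw [Nat.add_sub_cancel]
    push_cast
    ring
  have h6 : ((k * (k - 1) / 2 : ℕ) : ℝ) = k * (k - 1) / 2 := by
    rw [Nat.cast_div (by
      rw [mul_comm]
      obtain ⟨j, rfl⟩ : ∃ j, k = j + 1 := ⟨k - 1, by omega⟩
      rw [Nat.add_sub_cancel]
      exact (Nat.even_mul_succ_self j).two_dvd) (by norm_num)]
    rw [Nat.cast_mul, Nat.cast_sub (by omega)]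
    push_cast
    ring
  rw [h5, h6] at hu1
  have hkR : (2 : ℝ) ≤ k := by exact_mod_cast hk
  have hm0 : (0 : ℝ) ≤ m := Nat.cast_nonneg m
  have h7 : (m : ℝ) ^ 2 ≤ (1 - α) * k ^ 2 := by
    have h8 : (0 : ℝ) ≤ 1 - α := by linarith
    nlinarith [mul_nonneg h8 (by linarith : (0 : ℝ) ≤ k)]
  have h8 : (m : ℝ) ≤ Real.sqrt (1 - α) * k := by
    have h9 := Real.sqrt_le_sqrt h7
    rw [Real.sqrt_sq hm0, Real.sqrt_mul (by linarith), Real.sqrt_sq (by linarith)] at h9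
    exact h9
  have h9 : (k : ℝ) = u + 1 + m := by rw [hm]; push_cast; ring
  push_cast
  linarith

end Pool.Agent.TH837.KC
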